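import Pool.Agent.L0h11.FP.Stm

set_option autoImplicit false

namespace Pool.Agent.L0h98.FP

open Polynomial Finset Pool.Agent.L0h11.FP

def P {A : Type} [CommRing A] (u : A) (m : ℕ) (f : A[X]) : Prop := ∀ j, u ^ (m - j) ∣ f.coeff j

theorem P_add {A : Type} [CommRing A] {u : A} {m : ℕ} {f g : A[X]} (hf : P u m f) (hg : P u m g) :
    P u m (f + g) := by
  intro j
  rw [coeff_add]
  exact dvd_add (hf j) (hg j)

theorem P_mul {A : Type} [CommRing A] {u : A} {m : ℕ} {f : A[X]} (g : A[X]) (hf : P u m f) :
    P u m (g * f) := by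
  intro j
  rw [coeff_mul]
  refine Finset.dvd_sum fun p hp => ?_
  rw [HasAntidiagonal.mem_antidiagonal] at hp
  exact ((pow_dvd_pow u (by omega)).trans (hf p.2)).mul_left _

theorem P_X {A : Type} [CommRing A] {u : A} {m : ℕ} {f : A[X]} (hf : P u m f) :
    P u (m + 1) (X * f) := by
  intro j
  cases j with
  | zero => rw [coeff_X_mul_zero]; exact dvd_zero _
  | succ i =>
    rw [coeff_X_mul, Nat.add_sub_add_right]
    exact hf i

theorem P_C {A : Type} [CommRing A] {u : A} {m : ℕ} {f : A[X]} (hf : P u m f) :
    P u (m + 1) (C u * f) := by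
  intro j
  rw [coeff_C_mul]
  refine (pow_dvd_pow u (show m + 1 - j ≤ m - j + 1 by omega)).trans ?_
  rw [pow_succ']
  exact mul_dvd_mul_left u (hf j)

theorem IDL : St_IDL := by
  intro A _ c u m f
  constructor
  · intro h
    have key : ∀ (m : ℕ) (f : A[X]), f ∈ (Ideal.span {X - C c, C u}) ^ m → P u m (taylor c f) := by
      intro m
      induction m with
      | zero =>
        intro f _ j
        rw [Nat.zero_sub, pow_zero]
        exact one_dvd _
      | succ m ih =>
        intro f hf
        rw [pow_succ'] at hf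
        refine Submodule.mul_induction_on hf (fun r hr s hs => ?_) (fun x y hx hy => ?_)
        · obtain ⟨a, b, hab⟩ := Ideal.mem_span_pair.1 hr
          have e1 : taylor c (r * s) = taylor c a * (X * taylor c s) +
              taylor c b * (C u * taylor c s) := by
            rw [← hab, taylor_mul, map_add, taylor_mul, taylor_mul, map_sub, taylor_X, taylor_C,
              taylor_C]
            ring
          rw [e1]
          exact P_add (P_mul _ (P_X (ih s hs))) (P_mul _ (P_C (ih s hs)))
        · rw [map_add]
          exact P_add hx hy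
    exact fun j _ => key m f h j
  · intro h
    rw [← sum_taylor_eq f c, Polynomial.sum_def]
    refine Ideal.sum_mem _ fun j _ => ?_
    have hX : X - C c ∈ Ideal.span {X - C c, C u} := Ideal.subset_span (Set.mem_insert _ _)
    have hu : C u ∈ Ideal.span {X - C c, C u} :=
      Ideal.subset_span (Set.mem_insert_of_mem _ (Set.mem_singleton _))
    by_cases hj : j < m
    · obtain ⟨d, hd⟩ := h j hj
      rw [hd, C_mul, C_pow]
      have h1 : C u ^ (m - j) * (X - C c) ^ j ∈ (Ideal.span {X - C c, C u}) ^ m := by
        have := Ideal.mul_mem_mul (Ideal.pow_mem_pow hu (m - j)) (Ideal.pow_mem_pow hX j)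
        rwa [← pow_add, Nat.sub_add_cancel hj.le] at this
      have e2 : C u ^ (m - j) * C d * (X - C c) ^ j = C d * (C u ^ (m - j) * (X - C c) ^ j) := by
        ring
      rw [e2]
      exact Ideal.mul_mem_left _ _ h1
    · exact Ideal.mul_mem_left _ _ (Ideal.pow_le_pow_right (not_lt.1 hj) (Ideal.pow_mem_pow hX j))

end Pool.Agent.L0h98.FP
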