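import Pool.Agent.L0h11.FP.Stm

set_option autoImplicit false

namespace Pool.Agent.L0h98.FP

open Polynomial Finset Pool.Agent.L0h11.FP

theorem RES : St_RES := by
  intro k _ e D he f hf h0
  obtain ⟨q, hq⟩ := dvd_iff_isRoot.2 h0
  have hf' : ∀ j m, D ≤ m + j → (f.coeff j).coeff m = 0 := fun j m h =>
    (degree_lt_iff_coeff_zero _ _).1 (mem_degreeLT.1 (hf j)) _ (by omega)
  have key : ∀ j m, D ≤ m + e + j → (q.coeff j).coeff m = 0 := by
    intro j
    induction j with
    | zero =>
      intro m hm
      have h1 := hf' 0 (m + e) (by omega)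
      rw [hq, sub_mul, coeff_sub, coeff_X_mul_zero, coeff_C_mul, zero_sub, coeff_neg,
        coeff_X_pow_mul, neg_eq_zero] at h1
      exact h1
    | succ j ih =>
      intro m hm
      have h1 := hf' (j + 1) (m + e) (by omega)
      rw [hq, sub_mul, coeff_sub, coeff_X_mul, coeff_C_mul, coeff_sub, coeff_X_pow_mul,
        ih (m + e) (by omega), zero_sub, neg_eq_zero] at h1
      exact h1
  refine ⟨q, fun j => ?_, hq⟩
  exact mem_degreeLT.2 ((degree_lt_iff_coeff_zero _ _).2 fun m hm => key j m (by omega))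

end Pool.Agent.L0h98.FP
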