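import Pool.Agent.L0h11.FP.Stm

set_option autoImplicit false

namespace Pool.Agent.L0h98.FP

open Polynomial Finset Pool.Agent.L0h11.FP

theorem SUP : St_SUP := by
  classical
  intro k _ e D he f hf n hn
  rw [mem_support_iff, eval_eq_sum, Polynomial.sum_def, finsetSum_coeff] at hn
  obtain ⟨j, -, hj⟩ := Finset.exists_ne_zero_of_sum_ne_zero hn
  rw [← pow_mul, coeff_mul_X_pow'] at hj
  split_ifs at hj with h1
  · have h2 : n - e * j < D - j := by
      by_contra h3
      exact hj ((degree_lt_iff_coeff_zero _ _).1 (mem_degreeLT.1 (hf j)) _ (not_lt.1 h3))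
    obtain ⟨i, hi⟩ := Nat.exists_eq_add_of_le h1
    have hi' : n - e * j = i := by omega
    rw [hi'] at h2
    have h3 : i % e + e * (i / e) = i := Nat.mod_add_div i e
    have h4 : i / e ≤ e * (i / e) := Nat.le_mul_of_pos_left _ he
    have h5 : i % e < e := Nat.mod_lt _ he
    have h6 : i % e + (j + i / e) < D := by omega
    unfold Ex
    rw [Finset.mem_image]
    refine ⟨(i % e, j + i / e), ?_, ?_⟩
    · rw [Finset.mem_filter, Finset.mem_product, Finset.mem_range, Finset.mem_range]
      exact ⟨⟨h5, by dsimp only; omega⟩, h6⟩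
    · dsimp only
      rw [mul_add]
      omega
  · exact absurd rfl hj

end Pool.Agent.L0h98.FP
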